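import Pool.Agent.H413.G.R_seed8.H494R3.NK.Stmts

/-!
# TaskProj of project H494-NK: an idempotent of a C*-algebra and its range projection
-/

set_option autoImplicit false

namespace Pool.Agent.H399R6.NKProj

open Pool.Agent.H494R3.NK
open scoped ComplexOrder

universe u

theorem key {U : Type u} [CStarAlgebra U] (e : U) (he : e * e = e) :
    ∃ g : U, star g = g ∧ g * e = e * g ∧ g * star e = star e * g ∧ e * star e * e * g = e := by
  let _ := CStarAlgebra.spectralOrder U
  have _ := CStarAlgebra.spectralOrderedRing U
  obtain ⟨h, hh⟩ : ∃ h : U, h = 1 + (e - star e) * star (e - star e) := ⟨_, rfl⟩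
  have hes : star e * star e = star e := by rw [← star_mul, he]
  have hle : (1 : U) ≤ h := by
    rw [hh]
    exact le_add_of_nonneg_right (mul_star_self_nonneg _)
  have hpos : IsStrictlyPositive (1 : U) := by
    rw [IsStrictlyPositive.iff_of_unital]
    exact ⟨zero_le_one, isUnit_one⟩
  obtain ⟨v, hv⟩ := CStarAlgebra.isUnit_of_le _ hle hpos
  have hhs : star h = h := by
    rw [hh, star_add, star_one, star_mul, star_star]
  have e1 : e * h = e * star e * e := by
    calc e * h = e + (e * e) * star e - (e * e) * e - e * (star e * star e) + e * star e * e := by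
          rw [hh, star_sub, star_star]; noncomm_ring
      _ = e * star e * e := by rw [he, he, hes]; abel
  have e2 : h * e = e * star e * e := by
    calc h * e = e + e * star e * e - (e * e) * e - (star e * star e) * e + star e * (e * e) := by
          rw [hh, star_sub, star_star]; noncomm_ring
      _ = e * star e * e := by rw [he, he, hes]; abel
  have c1 : Commute e (v : U) := by
    show e * (v : U) = v * e
    rw [hv, e1, e2]
  have c2 : Commute (star e) (v : U) := by
    show star e * (v : U) = v * star e
    have := congrArg star (show e * h = h * e by rw [e1, e2])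
    rw [star_mul, star_mul, hhs] at this
    rw [hv]
    exact this.symm
  have hvs : star ((v⁻¹ : Uˣ) : U) = (v⁻¹ : Uˣ) := by
    have h8 : star ((v⁻¹ : Uˣ) : U) * h = 1 := by
      conv_lhs => rw [← hhs]
      rw [← star_mul, ← hv, Units.mul_inv, star_one]
    calc star ((v⁻¹ : Uˣ) : U) = star ((v⁻¹ : Uˣ) : U) * (h * (v⁻¹ : Uˣ)) := by
          rw [← hv, Units.mul_inv, mul_one]
      _ = (v⁻¹ : Uˣ) := by rw [← mul_assoc, h8, one_mul]
  refine ⟨(v⁻¹ : Uˣ), hvs, ?_, ?_, ?_⟩
  · exact c1.units_inv_right.eq.symm
  · exact c2.units_inv_right.eq.symm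
  · rw [← e1, ← hv, mul_assoc, Units.mul_inv, mul_one]

theorem taskProj : TaskProj.{u} := by
  intro A _ e he
  obtain ⟨g, hgs, hg1, hg2, hg3⟩ := key ((e : A) : Unitization ℂ A)
    (by rw [← Unitization.inr_mul, he])
  have hfst : ((e : Unitization ℂ A) * star (e : Unitization ℂ A) * g).fst = 0 := by
    rw [Unitization.fst_mul, Unitization.fst_mul, Unitization.fst_inr, zero_mul, zero_mul]
  obtain ⟨p, hp⟩ : ∃ p : A, (p : Unitization ℂ A) =
      (e : Unitization ℂ A) * star (e : Unitization ℂ A) * g := by
    refine ⟨((e : Unitization ℂ A) * star (e : Unitization ℂ A) * g).snd, ?_⟩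
    apply Unitization.ext
    · rw [hfst]; rfl
    · rfl
  have hinj : Function.Injective (fun x : A => (x : Unitization ℂ A)) :=
    Unitization.inr_injective
  have hee : (e : Unitization ℂ A) * (e : Unitization ℂ A) = (e : Unitization ℂ A) := by
    rw [← Unitization.inr_mul, he]
  have hpe : (p : Unitization ℂ A) * e = e := by
    rw [hp, mul_assoc, hg1, ← mul_assoc, hg3]
  have hep : (e : Unitization ℂ A) * p = p := by
    rw [hp, ← mul_assoc, ← mul_assoc, hee]
  refine ⟨p, ?_, ?_, ?_, ?_⟩
  · apply hinj
    show ((p * p : A) : Unitization ℂ A) = p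
    rw [Unitization.inr_mul]
    conv_lhs => rw [hp]
    have : (e : Unitization ℂ A) * star (e : Unitization ℂ A) * g *
        ((e : Unitization ℂ A) * star (e : Unitization ℂ A) * g) =
        ((e : Unitization ℂ A) * star (e : Unitization ℂ A) * g * e) *
          (star (e : Unitization ℂ A) * g) := by noncomm_ring
    rw [this, ← hp, hpe, ← mul_assoc, ← hp]
  · apply hinj
    show ((star p : A) : Unitization ℂ A) = p
    rw [Unitization.inr_star, hp, star_mul, star_mul, star_star, hgs, ← mul_assoc, hg1, mul_assoc,
      hg2, ← mul_assoc]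
  · apply hinj
    show ((p * e : A) : Unitization ℂ A) = e
    rw [Unitization.inr_mul, hpe]
  · apply hinj
    show ((e * p : A) : Unitization ℂ A) = p
    rw [Unitization.inr_mul, hep]

end Pool.Agent.H399R6.NKProj
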